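import Mathlib
import Pool.Agent.Mg.F71094f.Ge8325a

set_option autoImplicit false

/-!
Measured trees of countable height over a well-order of type omega one, whose children mimic
their shadows on countably many tracked predicates.
-/

namespace Pool.Agent.MP_71094f_lc.Cone

open Filter Set

/-- Trees with apex, level, children and shadows. -/
inductive Tw (Ω : Type) : Type
  | leaf : Ω → Tw Ω
  | node : Ω → Ω → (ℕ → Tw Ω) → (ℕ → Tw Ω) → Tw Ω

variable {Ω : Type}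

/-- The apex of a tree. -/
def Tw.ap : Tw Ω → Ω
  | .leaf a => a
  | .node a _ _ _ => a

/-- The level of a tree. -/
def Tw.lev : Tw Ω → WithBot Ω
  | .leaf _ => ⊥
  | .node _ l _ _ => (l : WithBot Ω)

/-- The children of a tree. -/
def Tw.ch : Tw Ω → ℕ → Tw Ω
  | .leaf a => fun _ => .leaf a
  | .node _ _ c _ => c

/-- The shadows of a tree. -/
def Tw.sh : Tw Ω → ℕ → Tw Ω
  | .leaf a => fun _ => .leaf a
  | .node _ _ _ s => s

/-- The fixed nonprincipal ultrafilter. -/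
noncomputable abbrev UU : Filter ℕ := (hyperfilter ℕ : Ultrafilter ℕ)

variable [LinearOrder Ω]

/-- The ultrafilter on the first descendants of level at most `z`. -/
noncomputable def fr (z : WithBot Ω) : Tw Ω → Ultrafilter (Tw Ω)
  | .leaf a => pure (.leaf a)
  | .node a l c s => if z < (l : WithBot Ω) then (hyperfilter ℕ).bind (fun k => fr z (c k))
      else pure (.node a l c s)

/-- The same as a filter. -/
noncomputable abbrev fF (z : WithBot Ω) (t : Tw Ω) : Filter (Tw Ω) := (fr z t : Ultrafilter (Tw Ω))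

lemma fr_stop {z : WithBot Ω} {t : Tw Ω} (h : ¬ z < t.lev) {Q : Tw Ω → Prop} :
    (∀ᶠ s in fF z t, Q s) ↔ Q t := by
  cases t with
  | leaf a => simp [fF, fr]
  | node a l c s =>
    have h' : ¬ z < (l : WithBot Ω) := h
    simp [fF, fr, h']

lemma fr_step {z : WithBot Ω} {t : Tw Ω} (h : z < t.lev) {Q : Tw Ω → Prop} :
    (∀ᶠ s in fF z t, Q s) ↔ ∀ᶠ k in UU, ∀ᶠ s in fF z (t.ch k), Q s := by
  cases t with
  | leaf a => exact absurd h not_lt_bot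
  | node a l c s =>
    have h' : z < (l : WithBot Ω) := h
    simp only [fF, fr, h', if_true]
    exact Filter.eventually_bind

lemma Tw.ind {P : Tw Ω → Prop} (h : ∀ t, (⊥ < t.lev → ∀ k, P (t.ch k)) → P t) : ∀ t, P t := by
  intro t
  induction t with
  | leaf a => exact h _ fun h1 => absurd h1 (lt_irrefl _)
  | node a l c s ih _ => exact h _ fun _ => ih

lemma fr_down {I : Tw Ω → Prop} {e z : WithBot Ω} (hez : e ≤ z)
    (hI : ∀ t, I t → e < t.lev → ∀ᶠ k in UU, I (t.ch k)) : ∀ t, I t → ∀ᶠ s in fF z t, I s := by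
  intro t
  induction t using Tw.ind with
  | h t ih =>
    intro ht
    by_cases h : z < t.lev
    · rw [fr_step h]
      filter_upwards [hI t ht (hez.trans_lt h)] with k hk using ih (bot_le.trans_lt h) k hk
    · exact (fr_stop h).mpr ht

lemma fr_comp {y z : WithBot Ω} (hyz : y ≤ z) {Q : Tw Ω → Prop} (t : Tw Ω) :
    (∀ᶠ s in fF y t, Q s) ↔ ∀ᶠ s in fF z t, ∀ᶠ u in fF y s, Q u := by
  induction t using Tw.ind with
  | h t ih =>
    by_cases h : z < t.lev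
    · rw [fr_step h, fr_step (hyz.trans_lt h)]
      exact eventually_congr (Eventually.of_forall fun k => ih (bot_le.trans_lt h) k)
    · exact (fr_stop h (Q := fun s => ∀ᶠ u in fF y s, Q u)).symm

lemma fr_lev (z : WithBot Ω) (t : Tw Ω) : ∀ᶠ s in fF z t, s.lev ≤ z := by
  induction t using Tw.ind with
  | h t ih =>
    by_cases h : z < t.lev
    · rw [fr_step h]
      exact Eventually.of_forall fun k => ih (bot_le.trans_lt h) k
    · exact (fr_stop h).mpr (not_lt.mp h)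

/-- The type of families of tracked predicates. -/
abbrev TPs (Ω : Type) : Type := ℕ → Tw Ω → WithBot Ω → Tw Ω → WithBot Ω → Tw Ω → Prop

/-- A family of trees of height `γ` whose children mimic their shadows. -/
structure Frame (γ : Ω) (TP : TPs Ω) (G : Tw Ω → Prop) : Prop where
  top : ∃ t, G t ∧ t.lev = γ
  ch : ∀ b, G b → ⊥ < b.lev → ∀ k, G (b.ch k) ∧ (b.ch k).ap < b.ap
  sh : ∀ b, G b → ⊥ < b.lev → ∀ k, G (b.sh k) ∧ (b.sh k).ap = b.ap
  le : ∀ b, G b → b.lev ≤ γ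
  cof : ∀ b, G b → ∀ l, l < b.lev → ∀ᶠ k in UU, l ≤ (b.ch k).lev
  mim : ∀ b, G b → ⊥ < b.lev → ∀ i s (e : WithBot Ω) t (z : WithBot Ω), G s → G t → s.ap < b.ap →
    t.ap < b.ap → e ≤ γ → z ≤ γ →
    ∀ᶠ k in UU, TP i s e t z (b.sh k) → TP i s e t z (b.ch k)

lemma exists_rec {I A : Type} (r : I → I → Prop) (hr : WellFounded r) (d : A)
    (Q : I → (I → A) → A → Prop)
    (hloc : ∀ i g g' a, (∀ j, r j i → g j = g' j) → Q i g a → Q i g' a)
    (hex : ∀ i g, ∃ a, Q i g a) : ∃ g, ∀ i, Q i g (g i) := by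
  classical
  choose F hF using hex
  let g : I → A := hr.fix (fun i h => F i (fun j => if hj : r j i then h j hj else d))
  refine ⟨g, fun i => ?_⟩
  have h1 : g i = F i (fun j => if r j i then g j else d) := hr.fix_eq _ i
  have h2 := hloc i _ g _ (fun j hj => by simp [hj]) (hF i (fun j => if r j i then g j else d))
  rwa [← h1] at h2

/-- Indices of trees. -/
abbrev Ix (Ω : Type) : Type := Ω × WithBot Ω

/-- Parameters of tracked predicates. -/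
abbrev Pm (Ω : Type) : Type := ℕ × Ix Ω × WithBot Ω × Ix Ω × WithBot Ω

/-- Parameters bounded by `η`. -/
def Al (γ η : Ω) (p : Pm Ω) : Prop :=
  p.2.1.1 ≤ η ∧ p.2.1.2 ≤ γ ∧ p.2.2.1 ≤ γ ∧ p.2.2.2.1.1 ≤ η ∧ p.2.2.2.1.2 ≤ γ ∧ p.2.2.2.2 ≤ γ

/-- A tracked predicate read through an indexing of trees. -/
def tp (TP : TPs Ω) (g : Ix Ω → Tw Ω) (p : Pm Ω) (b : Tw Ω) : Prop :=
  TP p.1 (g p.2.1) p.2.2.1 (g p.2.2.2.1) p.2.2.2.2 b

/-- A good sequence of children. -/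
def Step (γ : Ω) (TP : TPs Ω) (g : Ix Ω → Tw Ω) (i : Ix Ω) (c : ℕ → Ix Ω) : Prop :=
  (∀ k, (c k).1 < i.1 ∧ (c k).2 < i.2 ∧ (g (c k)).lev = (c k).2 ∧
    (g (i.1, (c k).2)).lev = (c k).2) ∧ (∀ l, l < i.2 → ∀ᶠ k in atTop, l ≤ (c k).2) ∧
  ∀ p η, η < i.1 → Al γ η p → ∀ᶠ k in atTop, tp TP g p (g (i.1, (c k).2)) → tp TP g p (g (c k))

lemma Step.loc {γ : Ω} {TP : TPs Ω} {g g' : Ix Ω → Tw Ω} {i : Ix Ω} {c : ℕ → Ix Ω}
    (h : ∀ j, Prod.Lex (· < ·) (· < ·) j i → g j = g' j) (hs : Step γ TP g i c) :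
    Step γ TP g' i c ∧ (∀ k, g (c k) = g' (c k)) ∧ ∀ k, g (i.1, (c k).2) = g' (i.1, (c k).2) := by
  have hl : ∀ j : Ix Ω, j.1 < i.1 → g j = g' j := fun j hj => h j (Prod.Lex.left _ _ hj)
  have h1 : ∀ k, g (c k) = g' (c k) := fun k => hl _ (hs.1 k).1
  have h2 : ∀ k, g (i.1, (c k).2) = g' (i.1, (c k).2) :=
    fun k => h _ (Prod.Lex.right _ (hs.1 k).2.1)
  refine ⟨⟨fun k => ?_, hs.2.1, fun p η hη hp => ?_⟩, h1, h2⟩
  · rw [← h1, ← h2]; exact hs.1 k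
  · filter_upwards [hs.2.2 p η hη hp] with k hk
    unfold tp at hk ⊢
    rw [← h1, ← h2, ← hl _ (hp.1.trans_lt hη), ← hl _ (hp.2.2.2.1.trans_lt hη)]
    exact hk

variable [hΩ : OmOne Ω]

lemma cntW (η : Ω) : {l : WithBot Ω | l ≤ η}.Countable := by
  refine (((hΩ.cnt η).image (fun a : Ω => (a : WithBot Ω))).insert ⊥).mono fun l hl => ?_
  induction l using WithBot.recBotCoe with
  | bot => exact mem_insert _ _
  | coe a => exact mem_insert_of_mem _ ⟨a, WithBot.coe_le_coe.mp hl, rfl⟩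

lemma cntAl (γ η : Ω) : {p : Pm Ω | Al γ η p}.Countable := by
  have h1 := (hΩ.cnt η).prod (cntW γ)
  refine ((countable_univ (α := ℕ)).prod (h1.prod ((cntW γ).prod (h1.prod (cntW γ))))).mono ?_
  rintro p ⟨a1, a2, a3, a4, a5, a6⟩
  exact ⟨mem_univ _, ⟨a1, a2⟩, a3, ⟨a4, a5⟩, a6⟩

lemma reflect {P : Type} (Bd : P → Ω → Prop) (hBd : ∀ η, {p | Bd p η}.Countable)
    (Z : P → Ω → Prop) :
    ∀ᶠ δ in club Ω, ∀ η, η < δ → ∀ p ∈ {p | Bd p η}, Z p δ → ∃ δ', δ' < δ ∧ Z p δ' := by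
  refine club_diag fun η => club_countable (hBd η) fun p _ => ?_
  by_cases h : ∃ z, Z p z
  · obtain ⟨z, hz⟩ := h
    filter_upwards [club_gt z] with δ hδ _ using ⟨z, hδ, hz⟩
  · exact Eventually.of_forall fun δ hδ => absurd ⟨δ, hδ⟩ h

lemma step_ae (γ : Ω) (TP : TPs Ω) (g : Ix Ω → Tw Ω) (l : WithBot Ω) (hl : l ≤ γ) (h0 : ⊥ < l)
    (ih : ∀ m, m < l → ∀ᶠ δ in club Ω, (g (δ, m)).lev = m) :
    ∀ᶠ δ in club Ω, ∃ c, Step γ TP g (δ, l) c := by
  classical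
  have hc : {m : WithBot Ω | m < l}.Countable := (cntW γ).mono fun m hm => (le_of_lt hm).trans hl
  have hr := reflect (Ω := Ω) (P := WithBot Ω × Set (Pm Ω))
    (fun q η => q.1 ≤ γ ∧ q.2.Finite ∧ q.2 ⊆ {p | Al γ η p})
    (fun η => (cntW γ).prod (countable_ofPred_finite_subset (cntAl γ η)))
    (fun q δ => (g (δ, q.1)).lev = q.1 ∧ ∀ p ∈ q.2, tp TP g p (g (δ, q.1)))
  filter_upwards [club_countable hc ih, hr, club_gt γ] with δ h1 h2 h3
  have hP : {p : Pm Ω | ∃ η, η < δ ∧ Al γ η p}.Countable := by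
    refine (cntAl γ δ).mono ?_
    rintro p ⟨η, hη, a1, a2, a3, a4, a5, a6⟩
    exact ⟨a1.trans hη.le, a2, a3, a4.trans hη.le, a5, a6⟩
  obtain ⟨e, he⟩ := hP.exists_eq_range
    ⟨(0, (γ, ⊥), ⊥, (γ, ⊥), ⊥), γ, h3, le_rfl, bot_le, bot_le, le_rfl, bot_le, bot_le⟩
  obtain ⟨v, hv⟩ := hc.exists_eq_range ⟨⊥, h0⟩
  have hv1 : ∀ j, v j < l := fun j => by
    have : v j ∈ {m : WithBot Ω | m < l} := by rw [hv]; exact mem_range_self j
    exact this
  let m : ℕ → WithBot Ω := fun k => (Finset.range (k + 1)).sup v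
  have hm : ∀ k, m k < l := fun k => (Finset.sup_lt_iff h0).mpr fun j _ => hv1 j
  have hb : ∀ k, ∃ η, η < δ ∧ ∀ j, j < k → Al γ η (e j) := by
    intro k
    induction k with
    | zero => exact ⟨γ, h3, fun j hj => absurd hj (Nat.not_lt_zero j)⟩
    | succ k ih =>
      obtain ⟨η, hη, hk⟩ := ih
      have : e k ∈ {p : Pm Ω | ∃ η, η < δ ∧ Al γ η p} := by rw [he]; exact mem_range_self k
      obtain ⟨η', hη', hk'⟩ := this
      refine ⟨max η η', max_lt hη hη', fun j hj => ?_⟩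
      rcases Nat.lt_succ_iff_lt_or_eq.mp hj with h | rfl
      · obtain ⟨a1, a2, a3, a4, a5, a6⟩ := hk j h
        exact ⟨le_max_of_le_left a1, a2, a3, le_max_of_le_left a4, a5, a6⟩
      · obtain ⟨a1, a2, a3, a4, a5, a6⟩ := hk'
        exact ⟨le_max_of_le_right a1, a2, a3, le_max_of_le_right a4, a5, a6⟩
  have hd : ∀ k, ∃ δ', δ' < δ ∧ (g (δ', m k)).lev = m k ∧
      ∀ j, j < k → tp TP g (e j) (g (δ, m k)) → tp TP g (e j) (g (δ', m k)) := by
    intro k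
    obtain ⟨η, hη, hk⟩ := hb k
    obtain ⟨δ', a1, a2, a3⟩ := h2 η hη
      (m k, {p | (∃ j, j < k ∧ e j = p) ∧ tp TP g p (g (δ, m k))})
      ⟨(hm k).le.trans hl, ((finite_lt_nat k).image e).subset fun p hp => hp.1, by
        rintro p ⟨⟨j, hj, rfl⟩, -⟩
        exact hk j hj⟩ ⟨h1 _ (hm k), fun p hp => hp.2⟩
    exact ⟨δ', a1, a2, fun j hj h => a3 _ ⟨⟨j, hj, rfl⟩, h⟩⟩
  choose d hd1 hd2 hd3 using hd
  refine ⟨fun k => (d k, m k), fun k => ⟨hd1 k, hm k, hd2 k, h1 _ (hm k)⟩, fun y hy => ?_,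
    fun p η hη hp => ?_⟩
  · have : y ∈ range v := by rw [← hv]; exact hy
    obtain ⟨j, rfl⟩ := this
    filter_upwards [eventually_ge_atTop j] with k hk
    exact Finset.le_sup (f := v) (Finset.mem_range.mpr (Nat.lt_succ_of_le hk))
  · have : p ∈ range e := by rw [← he]; exact ⟨η, hη, hp⟩
    obtain ⟨j, rfl⟩ := this
    filter_upwards [eventually_gt_atTop j] with k hk using hd3 k j hk

theorem exists_frame (γ : Ω) (TP : TPs Ω) : ∃ G, Frame γ TP G := by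
  have : WellFoundedLT Ω := ⟨hΩ.wf⟩
  obtain ⟨g, hg⟩ := exists_rec (I := Ix Ω) (A := Tw Ω) (Prod.Lex (· < ·) (· < ·))
    (WellFounded.prod_lex wellFounded_lt wellFounded_lt) (.leaf γ)
    (fun i g a => (∃ (l : Ω) (c : ℕ → Ix Ω), i.2 = l ∧ Step γ TP g i c ∧
      a = .node i.1 l (fun k => g (c k)) (fun k => g (i.1, (c k).2))) ∨
      ((¬ ∃ c, Step γ TP g i c) ∧ a = .leaf i.1))
    (by
      rintro i g g' a h (⟨l, c, h1, h2, h3⟩ | ⟨h1, h2⟩)
      · obtain ⟨a1, a2, a3⟩ := h2.loc h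
        exact Or.inl ⟨l, c, h1, a1, by rw [h3, funext a2, funext a3]⟩
      · exact Or.inr ⟨fun ⟨c, hc⟩ => h1 ⟨c, (hc.loc fun j hj => (h j hj).symm).1⟩, h2⟩)
    (by
      intro i g
      by_cases h : ∃ c, Step γ TP g i c
      · obtain ⟨c, hc⟩ := h
        obtain ⟨l, hl⟩ := WithBot.ne_bot_iff_exists.mp (ne_bot_of_gt (hc.1 0).2.1)
        exact ⟨_, Or.inl ⟨l, c, hl.symm, hc, rfl⟩⟩
      · exact ⟨_, Or.inr ⟨h, rfl⟩⟩)
  have hap : ∀ i, (g i).ap = i.1 := by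
    intro i
    rcases hg i with ⟨l, c, -, -, h⟩ | ⟨-, h⟩ <;> rw [h] <;> rfl
  have hae : ∀ l : WithBot Ω, l ≤ γ → ∀ᶠ δ in club Ω, (g (δ, l)).lev = l := by
    intro l
    induction l using WellFoundedLT.induction with
    | ind l ih =>
      intro hl
      rcases eq_bot_or_bot_lt l with rfl | h0
      · refine Eventually.of_forall fun δ => ?_
        rcases hg (δ, ⊥) with ⟨l, c, h, -, -⟩ | ⟨-, h⟩
        · exact absurd h WithBot.bot_ne_coe
        · rw [h]; rfl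
      · filter_upwards [step_ae γ TP g l hl h0 fun m hm => ih m hm (hm.le.trans hl)] with δ hδ
        rcases hg (δ, l) with ⟨l', c, h, -, h'⟩ | ⟨h, -⟩
        · rw [h']; exact h.symm
        · exact absurd hδ h
  have key : ∀ b : Tw Ω, g (b.ap, b.lev) = b → ⊥ < b.lev → ∃ c, Step γ TP g (b.ap, b.lev) c ∧
      (∀ k, b.ch k = g (c k)) ∧ ∀ k, b.sh k = g (b.ap, (c k).2) := by
    intro b hb h0
    rcases hg (b.ap, b.lev) with ⟨l, c, -, h1, h⟩ | ⟨-, h⟩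
    · rw [hb] at h
      exact ⟨c, h1, fun k => by rw [h]; rfl, fun k => congrFun (congrArg Tw.sh h) k⟩
    · rw [hb] at h
      rw [h] at h0
      exact absurd h0 (lt_irrefl _)
  have : Nonempty Ω := ⟨γ⟩
  have := club_neBot (Ω := Ω)
  refine ⟨fun b => b.lev ≤ γ ∧ g (b.ap, b.lev) = b, ?_, ?_, ?_, fun b hb => hb.1, ?_, ?_⟩
  · obtain ⟨δ, hδ⟩ := (hae γ le_rfl).exists
    exact ⟨g (δ, γ), ⟨hδ.le, by rw [hap, hδ]⟩, hδ⟩
  · intro b hb h0 k
    obtain ⟨c, h1, h2, -⟩ := key b hb.2 h0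
    obtain ⟨a1, a2, a3, -⟩ := h1.1 k
    rw [h2, hap, a3]
    exact ⟨⟨a2.le.trans hb.1, rfl⟩, a1⟩
  · intro b hb h0 k
    obtain ⟨c, h1, -, h2⟩ := key b hb.2 h0
    obtain ⟨-, a2, -, a3⟩ := h1.1 k
    rw [h2, hap, a3]
    exact ⟨⟨a2.le.trans hb.1, rfl⟩, rfl⟩
  · intro b hb l hl
    obtain ⟨c, h1, h2, -⟩ := key b hb.2 (bot_le.trans_lt hl)
    filter_upwards [Nat.hyperfilter_le_atTop (h1.2.1 l hl)] with k hk
    rw [h2, (h1.1 k).2.2.1]
    exact hk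
  · intro b hb h0 i s e t z hs ht h3 h4 he hz
    obtain ⟨c, h1, h2, h5⟩ := key b hb.2 h0
    filter_upwards [Nat.hyperfilter_le_atTop (h1.2.2 (i, (s.ap, s.lev), e, (t.ap, t.lev), z)
      (max s.ap t.ap) (max_lt h3 h4)
      ⟨le_max_left _ _, hs.1, he, le_max_right _ _, ht.1, hz⟩)] with k hk
    have hk' : TP i (g (s.ap, s.lev)) e (g (t.ap, t.lev)) z (g (b.ap, (c k).2)) →
      TP i (g (s.ap, s.lev)) e (g (t.ap, t.lev)) z (g (c k)) := hk
    rw [hs.2, ht.2, ← h2, ← h5] at hk'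
    exact hk'

end Pool.Agent.MP_71094f_lc.Cone

/-!
Games on measured trees and the two window lemmas.
-/

namespace Pool.Agent.MP_71094f_lc.Cone

open Filter Set

variable {Ω : Type} [LinearOrder Ω]

/-- A step above level `e` leads into `Q`. -/
def St (e : WithBot Ω) (s : Tw Ω) (Q : Tw Ω → Prop) : Prop := e < s.lev ∧ ∀ᶠ k in UU, Q (s.ch k)

lemma St.mono {e e' : WithBot Ω} {s : Tw Ω} {Q Q' : Tw Ω → Prop} (h : St e s Q) (he : e' ≤ e)
    (hQ : ∀ t, Q t → Q' t) : St e' s Q' := ⟨he.trans_lt h.1, h.2.mono fun _ hk => hQ _ hk⟩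

lemma not_step {W : Tw Ω → Prop} {e : WithBot Ω} {t : Tw Ω} (h : St e t W → W t) (ht : ¬ W t)
    (he : e < t.lev) : ∀ᶠ k in UU, ¬ W (t.ch k) :=
  Ultrafilter.eventually_not.mpr fun h' => ht (h ⟨he, h'⟩)

lemma mvN {W : Tw Ω → Prop} {e z : WithBot Ω} (hz : z = ⊥ ∨ e ≤ z) (hst : ∀ t, St e t W → W t)
    {t : Tw Ω} (hbu : (∀ᶠ x in fF ⊥ t, W x) → W t) (ht : ¬ W t) : ∀ᶠ s in fF z t, ¬ W s := by
  rcases hz with rfl | hz
  · exact Ultrafilter.eventually_not.mpr fun h => ht (hbu h)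
  · exact fr_down (I := fun s => ¬ W s) hz (fun t h1 h2 => not_step (hst t) h1 h2) t ht

variable (B : Ω → Ω → Ω → Prop)

/-- Closure conditions of the pair game. -/
structure BWc (e z : WithBot Ω) (a : Ω) (W : Tw Ω → Tw Ω → Prop) : Prop where
  base : ∀ s t, s.lev = ⊥ → t.lev = ⊥ → B s.ap t.ap a → W s t
  stL : ∀ s t, St e s (fun s' => W s' t) → W s t
  buL : ∀ s t, (∀ᶠ x in fF ⊥ s, W x t) → W s t
  stR : ∀ s t, St z t (W s) → W s t
  buR : ∀ s t, (∀ᶠ y in fF ⊥ t, W s y) → W s t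

/-- Blue wins the pair game. -/
def BW (e z : WithBot Ω) (a : Ω) (s t : Tw Ω) : Prop := ∀ W, BWc B e z a W → W s t

/-- The left token bursts first. -/
def Crit (s t : Tw Ω) (a : Ω) : Prop := ∀ᶠ x in fF ⊥ s, ∀ᶠ y in fF ⊥ t, B x.ap y.ap a

/-- Blue wins with two tokens on one tree below the top `a`. -/
def Bad (e : WithBot Ω) (a : Ω) (s : Tw Ω) : Prop :=
  ∀ W : Tw Ω → Prop, (∀ s, BW B e e a s s → W s) → (∀ s, St e s W → W s) → W s

/-- Blue wins with one token on the left tree and two on the right tree. -/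
def Unc (e : WithBot Ω) (s b : Tw Ω) : Prop :=
  ∀ W : Tw Ω → Tw Ω → Prop, (∀ s b, BW B e ⊥ b.ap s b → W s b) →
    (∀ s b, St e s (fun s' => W s' b) → W s b) →
    (∀ s b, ⊥ < b.lev → (∀ᶠ k in UU, W s (b.sh k)) → W s b) → W s b

/-- The tracked predicates. -/
def TP : TPs Ω := fun i s e t z b =>
  match i with
  | 0 => s.ap < b.ap
  | 1 => ¬ BW B e z b.ap s t
  | 2 => ¬ Bad B e b.ap s
  | 3 => Crit B s t b.ap
  | _ => ¬ Unc B e s b

/-- Every large set of points holds a clique of size `j` of the top link of `a`. -/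
def HvA (a : Ω) (j : ℕ) (s : Tw Ω) : Prop :=
  ∀ Q : Ω → Prop, (∀ᶠ x in fF ⊥ s, Q x.ap) → ∃ A : List Ω, A.length = j ∧
    A.Pairwise (fun x y => B x y a ∨ B y x a) ∧ ∀ x ∈ A, Q x

/-- Configurations of critical pairs. -/
def Cfg (G : Tw Ω → Prop) (s : Tw Ω) : List (Tw Ω) → Ω → Prop
  | [], _ => True
  | t :: L, a => G t ∧ s.ap < t.ap ∧ t.ap < a ∧ Crit B s t a ∧ Cfg G s L a ∧ Cfg G s L t.ap

/-- Every configuration extends by `j` further pairs. -/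
def HvB (G : Tw Ω → Prop) (d : Ω) (j : ℕ) (s : Tw Ω) : Prop :=
  ∀ L, G s → s.ap < d → Cfg B G s L d →
    ∃ s' L', G s' ∧ Cfg B G s' L' d ∧ L'.length = L.length + j

variable {B}

lemma BW.closed {e z : WithBot Ω} {a : Ω} : BWc B e z a (BW B e z a) where
  base s t h1 h2 h3 _ hW := hW.base s t h1 h2 h3
  stL s t h W hW := hW.stL s t (h.mono le_rfl fun _ h' => h' W hW)
  buL s t h W hW := hW.buL s t (h.mono fun _ h' => h' W hW)
  stR s t h W hW := hW.stR s t (h.mono le_rfl fun _ h' => h' W hW)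
  buR s t h W hW := hW.buR s t (h.mono fun _ h' => h' W hW)

lemma BW.mono {e z e' z' : WithBot Ω} {a : Ω} {s t : Tw Ω} (h : BW B e z a s t) (he : e' ≤ e)
    (hz : z' ≤ z) : BW B e' z' a s t := fun W hW =>
  h W ⟨hW.base, fun s t h => hW.stL s t (h.mono he fun _ h => h), hW.buL,
    fun s t h => hW.stR s t (h.mono hz fun _ h => h), hW.buR⟩

lemma BW.crit {e z : WithBot Ω} {a : Ω} {s t : Tw Ω} (h : BW B e z a s t)
    {I : Tw Ω → Tw Ω → Prop} {C : Prop}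
    (hs : ∀ s t, I s t → e < s.lev → ∀ᶠ k in UU, I (s.ch k) t)
    (ht : ∀ s t, I s t → z < t.lev → ∀ᶠ k in UU, I s (t.ch k))
    (hL : ∀ s t, I s t → Crit B s t a → C)
    (hR : ∀ s t, I s t → (∀ᶠ y in fF ⊥ t, ∀ᶠ x in fF ⊥ s, B x.ap y.ap a) →
      C ∨ ∀ᶠ y in fF ⊥ t, I s y) (hI : I s t) : C := by
  refine (h (fun s t => ((s.lev = ⊥ → ∀ᶠ y in fF ⊥ t, B s.ap y.ap a) ∧
    (t.lev = ⊥ → ∀ᶠ x in fF ⊥ s, B x.ap t.ap a)) ∧ (I s t → C)) ⟨?_, ?_, ?_, ?_, ?_⟩).2 hI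
  · intro s t h1 h2 h3
    have e1 : ¬ ⊥ < s.lev := by simp [h1]
    have e2 : ¬ ⊥ < t.lev := by simp [h2]
    exact ⟨⟨fun _ => (fr_stop e2).mpr h3, fun _ => (fr_stop e1).mpr h3⟩,
      fun hI => hL s t hI ((fr_stop e1).mpr ((fr_stop e2).mpr h3))⟩
  · rintro s t ⟨h1, h2⟩
    refine ⟨⟨fun h => by simp [h] at h1, fun h => ?_⟩, fun hI => ?_⟩
    · exact (fr_step (bot_le.trans_lt h1)).mpr (h2.mono fun k hk => hk.1.2 h)
    · obtain ⟨k, a1, a2⟩ := (h2.and (hs s t hI h1)).exists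
      exact a1.2 a2
  · intro s t h1
    refine ⟨⟨fun h => ?_, fun h => ?_⟩, fun hI => hL s t hI ?_⟩
    · exact ((fr_stop (by simp [h])).mp h1).1.1 h
    · exact (fr_comp le_rfl s).mpr (h1.mono fun x hx => hx.1.2 h)
    · filter_upwards [h1, fr_lev ⊥ s] with x a1 a2 using a1.1.1 (le_bot_iff.mp a2)
  · rintro s t ⟨h1, h2⟩
    refine ⟨⟨fun h => ?_, fun h => by simp [h] at h1⟩, fun hI => ?_⟩
    · exact (fr_step (bot_le.trans_lt h1)).mpr (h2.mono fun k hk => hk.1.1 h)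
    · obtain ⟨k, a1, a2⟩ := (h2.and (ht s t hI h1)).exists
      exact a1.2 a2
  · intro s t h1
    refine ⟨⟨fun h => ?_, fun h => ?_⟩, fun hI => ?_⟩
    · exact (fr_comp le_rfl t).mpr (h1.mono fun x hx => hx.1.1 h)
    · exact ((fr_stop (by simp [h])).mp h1).1.2 h
    · rcases hR s t hI (by
        filter_upwards [h1, fr_lev ⊥ t] with x a1 a2 using a1.1.2 (le_bot_iff.mp a2)) with h | h
      · exact h
      · obtain ⟨y, a1, a2⟩ := (h1.and h).exists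
        exact a1.2 a2

lemma Bad.base {e : WithBot Ω} {a : Ω} {s : Tw Ω} (h : BW B e e a s s) : Bad B e a s :=
  fun _ h1 _ => h1 s h

lemma Bad.step {e : WithBot Ω} {a : Ω} (s : Tw Ω) (h : St e s (Bad B e a)) : Bad B e a s :=
  fun W h1 h2 => h2 s (h.mono le_rfl fun _ h' => h' W h1 h2)

lemma Bad.mono {e e' : WithBot Ω} {a : Ω} {s : Tw Ω} (h : Bad B e a s) (he : e' ≤ e) :
    Bad B e' a s := fun W h1 h2 =>
  h W (fun s h => h1 s (h.mono he he)) fun s h => h2 s (h.mono he fun _ h => h)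

lemma Unc.base {e : WithBot Ω} {s b : Tw Ω} (h : BW B e ⊥ b.ap s b) : Unc B e s b :=
  fun _ h1 _ _ => h1 s b h

lemma Unc.step {e : WithBot Ω} (s b : Tw Ω) (h : St e s (fun s' => Unc B e s' b)) : Unc B e s b :=
  fun W h1 h2 h3 => h2 s b (h.mono le_rfl fun _ h' => h' W h1 h2 h3)

lemma Unc.shad {e : WithBot Ω} {s b : Tw Ω} (h0 : ⊥ < b.lev)
    (h : ∀ᶠ k in UU, Unc B e s (b.sh k)) : Unc B e s b :=
  fun W h1 h2 h3 => h3 s b h0 (h.mono fun _ h' => h' W h1 h2 h3)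

lemma Unc.mono {e e' : WithBot Ω} {s b : Tw Ω} (h : Unc B e s b) (he : e' ≤ e) :
    Unc B e' s b := fun W h1 h2 h3 =>
  h W (fun s b h => h1 s b (h.mono he le_rfl)) (fun s b h => h2 s b (h.mono he fun _ h => h)) h3

lemma HvA.zero (a : Ω) (s : Tw Ω) : HvA B a 0 s := fun _ _ => ⟨[], rfl, List.Pairwise.nil, by simp⟩

lemma HvA.up {a : Ω} {j : ℕ} {s : Tw Ω} {z : WithBot Ω} (h : ∀ᶠ s' in fF z s, HvA B a j s') :
    HvA B a j s := by
  intro Q hQ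
  obtain ⟨s', a1, a2⟩ := (h.and ((fr_comp bot_le s).mp hQ)).exists
  exact a1 Q a2

lemma keyA {e : WithBot Ω} {a : Ω} {j : ℕ} {s : Tw Ω} (h : Bad B e a s)
    (hj : ∀ᶠ s' in fF e s, HvA B a j s') : HvA B a (j + 1) s := by
  intro Q hQ
  let I : Tw Ω → Prop := fun s => (∀ᶠ x in fF ⊥ s, Q x.ap) ∧ ∀ᶠ s' in fF e s, HvA B a j s'
  have hI : ∀ s, I s → e < s.lev → ∀ᶠ k in UU, I (s.ch k) := fun s h1 h2 =>
    ((fr_step (bot_le.trans_lt h2)).mp h1.1).and ((fr_step h2).mp h1.2)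
  have ext : ∀ s t, I s → I t → (∀ᶠ x in fF ⊥ s, ∀ᶠ y in fF ⊥ t, B x.ap y.ap a ∨ B y.ap x.ap a) →
      ∃ A : List Ω, A.length = j + 1 ∧ A.Pairwise (fun x y => B x y a ∨ B y x a) ∧
        ∀ x ∈ A, Q x := by
    intro s t h1 h2 h3
    obtain ⟨A, a1, a2, a3⟩ := HvA.up h1.2
      (fun x => Q x ∧ ∀ᶠ y in fF ⊥ t, B x y.ap a ∨ B y.ap x a) (h1.1.and h3)
    obtain ⟨y, b1, b2⟩ := (h2.1.and ((eventually_all_finite A.finite_toSet).mpr
      fun x hx => (a3 x hx).2)).exists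
    refine ⟨y.ap :: A, by simp [a1], List.pairwise_cons.mpr ⟨fun x hx => (b2 x hx).symm, a2⟩, ?_⟩
    intro x hx
    rcases List.mem_cons.mp hx with rfl | hx
    · exact b1
    · exact (a3 x hx).1
  refine h (fun s => I s → _) (fun s hb hs => ?_) (fun s hb hs => ?_) ⟨hQ, hj⟩
  · refine hb.crit (I := fun s t => I s ∧ I t) ?_ ?_ ?_ ?_ ⟨hs, hs⟩
    · exact fun s t h1 h2 => (hI s h1.1 h2).mono fun k hk => ⟨hk, h1.2⟩
    · exact fun s t h1 h2 => (hI t h1.2 h2).mono fun k hk => ⟨h1.1, hk⟩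
    · exact fun s t h1 h2 => ext s t h1.1 h1.2 (h2.mono fun x hx => hx.mono fun y => Or.inl)
    · exact fun s t h1 h2 =>
        Or.inl (ext t s h1.2 h1.1 (h2.mono fun x hx => hx.mono fun y => Or.inr))
  · obtain ⟨k, a1, a2⟩ := (hb.2.and (hI s hs hb.1)).exists
    exact a1 a2

/-- Blue triples are increasing and all links have cliques of size at most `n`. -/
structure Lk (B : Ω → Ω → Ω → Prop) (n : ℕ) : Prop where
  ord : ∀ x y z, B x y z → x < y ∧ y < z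
  top : ∀ a (A : List Ω), A.Pairwise (fun x y => B x y a ∨ B y x a) → A.length ≤ n
  bot : ∀ x (A : List Ω), A.Pairwise (B x) → A.length ≤ n

variable {n : ℕ} {γ : Ω} {G : Tw Ω → Prop}

lemma HvA.le (hn : Lk B n) {a : Ω} {j : ℕ} {s : Tw Ω} (h : HvA B a j s) : j ≤ n := by
  obtain ⟨A, a1, a2, -⟩ := h (fun _ => True) (Eventually.of_forall fun _ => trivial)
  exact a1 ▸ hn.top a A a2

lemma not_bad (hn : Lk B n) {e : WithBot Ω} {a : Ω} {s : Tw Ω} (hs : s.lev ≤ e) :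
    ¬ Bad B e a s := by
  intro h
  have : ∀ j, HvA B a j s := by
    intro j
    induction j with
    | zero => exact HvA.zero a s
    | succ j ih => exact keyA h ((fr_stop (not_lt.mpr hs)).mpr ih)
  exact absurd ((this (n + 1)).le hn) (by omega)

lemma mimA (F : Frame γ (TP B) G) {b s t : Tw Ω} {e z : WithBot Ω} (i : ℕ) (hb : G b)
    (h0 : ⊥ < b.lev) (hs : G s) (ht : G t) (h1 : s.ap < b.ap) (h2 : t.ap < b.ap) (he : e ≤ γ)
    (hz : z ≤ γ) {P : Ω → Prop} (hi : ∀ c, TP B i s e t z c ↔ P c.ap) (h : P b.ap) :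
    ∀ᶠ k in UU, P (b.ch k).ap := by
  filter_upwards [F.mim b hb h0 i s e t z hs ht h1 h2 he hz] with k hk
  rw [hi, hi, (F.sh b hb h0 k).2] at hk
  exact hk h

lemma mim0 (F : Frame γ (TP B) G) {b s : Tw Ω} (hb : G b) (h0 : ⊥ < b.lev) (hs : G s)
    (h1 : s.ap < b.ap) : ∀ᶠ k in UU, s.ap < (b.ch k).ap :=
  mimA F (e := ⊥) (z := ⊥) 0 hb h0 hs hs h1 h1 bot_le bot_le (P := fun c => s.ap < c)
    (fun _ => Iff.rfl) h1

lemma fr_le (F : Frame γ (TP B) G) {w : Tw Ω} (hw : G w) (z : WithBot Ω) :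
    ∀ᶠ s in fF z w, G s ∧ s.ap ≤ w.ap :=
  fr_down (I := fun s => G s ∧ s.ap ≤ w.ap) bot_le (fun t h1 h2 => Eventually.of_forall fun k =>
    ⟨(F.ch t h1.1 h2 k).1, (F.ch t h1.1 h2 k).2.le.trans h1.2⟩) w ⟨hw, le_rfl⟩

lemma fr_lt (F : Frame γ (TP B) G) {w : Tw Ω} (hw : G w) {z : WithBot Ω} (hz : z < w.lev) :
    ∀ᶠ s in fF z w, G s ∧ s.ap < w.ap := by
  rw [fr_step hz]
  refine Eventually.of_forall fun k => ?_
  have h := F.ch w hw (bot_le.trans_lt hz) k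
  filter_upwards [fr_le F h.1 z] with s hs using ⟨hs.1, hs.2.trans_lt h.2⟩

lemma Cfg.left (F : Frame γ (TP B) G) {s : Tw Ω} (hs : G s) (h0 : ⊥ < s.lev) :
    ∀ (L : List (Tw Ω)) (a : Ω), Cfg B G s L a → ∀ᶠ k in UU, Cfg B G (s.ch k) L a
  | [], _, _ => Eventually.of_forall fun _ => trivial
  | t :: L, a, h => by
    filter_upwards [(fr_step h0).mp h.2.2.2.1, Cfg.left F hs h0 L a h.2.2.2.2.1,
      Cfg.left F hs h0 L t.ap h.2.2.2.2.2] with k a1 a2 a3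
    exact ⟨h.1, (F.ch s hs h0 k).2.trans h.2.1, h.2.2.1, a1, a2, a3⟩

lemma Cfg.top (F : Frame γ (TP B) G) {s b : Tw Ω} (hs : G s) (hb : G b) (h0 : ⊥ < b.lev)
    (h1 : s.ap < b.ap) :
    ∀ L : List (Tw Ω), Cfg B G s L b.ap → ∀ᶠ k in UU, Cfg B G s L (b.ch k).ap
  | [], _ => Eventually.of_forall fun _ => trivial
  | t :: L, h => by
    filter_upwards [mim0 F hb h0 h.1 h.2.2.1, Cfg.top F hs hb h0 h1 L h.2.2.2.2.1,
      mimA F (e := ⊥) (z := ⊥) 3 hb h0 hs h.1 h1 h.2.2.1 bot_le bot_le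
        (P := fun c => Crit B s t c) (fun _ => Iff.rfl) h.2.2.2.1] with k a1 a2 a3
    exact ⟨h.1, h.2.1, a1, a3, a2, h.2.2.2.2.2⟩

lemma Cfg.topF (F : Frame γ (TP B) G) {s b : Tw Ω} (hs : G s) (hb : G b) (h1 : s.ap < b.ap)
    {L : List (Tw Ω)} (h : Cfg B G s L b.ap) (z : WithBot Ω) :
    ∀ᶠ y in fF z b, G y ∧ s.ap < y.ap ∧ Cfg B G s L y.ap := by
  refine fr_down (I := fun y => G y ∧ s.ap < y.ap ∧ Cfg B G s L y.ap) bot_le ?_ b ⟨hb, h1, h⟩
  intro t ht h0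
  filter_upwards [mim0 F ht.1 h0 hs ht.2.1, Cfg.top F hs ht.1 h0 ht.2.1 L ht.2.2] with k a1 a2
  exact ⟨(F.ch t ht.1 h0 k).1, a1, a2⟩

lemma Cfg.leftF (F : Frame γ (TP B) G) {s : Tw Ω} (hs : G s) {L : List (Tw Ω)} {a : Ω}
    (h : Cfg B G s L a) (z : WithBot Ω) : ∀ᶠ x in fF z s, G x ∧ Cfg B G x L a := by
  refine fr_down (I := fun x => G x ∧ Cfg B G x L a) bot_le ?_ s ⟨hs, h⟩
  intro t ht h0
  filter_upwards [Cfg.left F ht.1 h0 L a ht.2] with k a1 using ⟨(F.ch t ht.1 h0 k).1, a1⟩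

lemma Cfg.clique (F : Frame γ (TP B) G) (hn : Lk B n) {x : Tw Ω} (hx : G x) (h0 : x.lev ≤ ⊥) :
    ∀ (L : List (Tw Ω)) (a : Ω) (A : List Ω), (a :: A).Pairwise (B x.ap) →
      (∀ c ∈ a :: A, Cfg B G x L c) → A.length + L.length < n
  | [], a, A, h1, _ => hn.bot _ _ h1
  | t :: L, a, A, h1, h2 => by
    have h3 := h2 a List.mem_cons_self
    obtain ⟨y, b1, b2⟩ := ((Cfg.topF F hx h3.1 h3.2.1 h3.2.2.2.2.2 ⊥).and
      ((eventually_all_finite (a :: A).finite_toSet).mpr fun c hc =>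
        (fr_stop (not_lt.mpr h0)).mp (h2 c hc).2.2.2.1)).exists
    have := Cfg.clique F hn hx h0 L y.ap (a :: A) (List.pairwise_cons.mpr ⟨b2, h1⟩) (by
      intro c hc
      rcases List.mem_cons.mp hc with rfl | hc
      · exact b1.2.2
      · exact (h2 c hc).2.2.2.2.1)
    simp only [List.length_cons] at this ⊢
    omega

lemma Cfg.bound (F : Frame γ (TP B) G) (hn : Lk B n) {s : Tw Ω} (hs : G s) {L : List (Tw Ω)}
    {a : Ω} (h : Cfg B G s L a) : L.length < n := by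
  obtain ⟨x, a1, a2⟩ := ((h.leftF F hs ⊥).and (fr_lev ⊥ s)).exists
  simpa using Cfg.clique F hn a1.1 a2 L a [] (by simp) (by simpa using a1.2)

lemma noTop (F : Frame γ (TP B) G) (hn : Lk B n) {s b : Tw Ω} (hs : G s) (hb : G b)
    (h1 : s.ap < b.ap) : ¬ Crit B s b b.ap := by
  intro h
  obtain ⟨x, ⟨a1, a2⟩, a3⟩ := ((h.and (fr_le F hs ⊥)).and (fr_lev ⊥ s)).exists
  have : ∀ r, ∃ L, Cfg B G x L b.ap ∧ L.length = r := by
    intro r
    induction r with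
    | zero => exact ⟨[], trivial, rfl⟩
    | succ r ih =>
      obtain ⟨L, c1, c2⟩ := ih
      obtain ⟨y, ⟨b1, b2⟩, b3⟩ := ((a1.and (c1.topF F a2.1 hb (a2.2.trans_lt h1) ⊥)).and
        (fr_lev ⊥ b)).exists
      exact ⟨y :: L, ⟨b2.1, b2.2.1, (hn.ord _ _ _ b1).2,
        (fr_stop (not_lt.mpr a3)).mpr ((fr_stop (not_lt.mpr b3)).mpr b1), c1, b2.2.2⟩, by simp [c2]⟩
  obtain ⟨L, c1, c2⟩ := this n
  exact absurd (c1.bound F hn a2.1) (by omega)

lemma HvB.zero (d : Ω) (s : Tw Ω) : HvB B G d 0 s := fun L h1 _ h3 => ⟨s, L, h1, h3, rfl⟩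

lemma HvB.up (F : Frame γ (TP B) G) {d : Ω} {j : ℕ} {s : Tw Ω} {z : WithBot Ω}
    (h : ∀ᶠ s' in fF z s, HvB B G d j s') : HvB B G d j s := by
  intro L h1 h2 h3
  obtain ⟨s', ⟨a1, a2⟩, a3⟩ := ((h.and (h3.leftF F h1 z)).and (fr_le F h1 z)).exists
  exact a1 L a2.1 (a3.2.trans_lt h2) a2.2

lemma HvB.lt (F : Frame γ (TP B) G) (hn : Lk B n) {d : Ω} {j : ℕ} {s : Tw Ω} (hs : G s)
    (h1 : s.ap < d) (h : HvB B G d j s) : j < n := by
  obtain ⟨s', L, a1, a2, a3⟩ := h [] hs h1 trivial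
  have := a2.bound F hn a1
  simp only [List.length_nil] at a3
  omega

lemma keyB (F : Frame γ (TP B) G) (hn : Lk B n) {e : WithBot Ω} {j : ℕ} {s b : Tw Ω}
    (h : Unc B e s b) (hb : G b) (hj : ∀ᶠ s' in fF e s, HvB B G b.ap j s') :
    HvB B G b.ap (j + 1) s := by
  intro L h1 h2 h3
  let I : Tw Ω → Prop := fun s => G s ∧ s.ap < b.ap ∧ Cfg B G s L b.ap ∧
    ∀ᶠ s' in fF e s, HvB B G b.ap j s'
  have hI : ∀ s, I s → e < s.lev → ∀ᶠ k in UU, I (s.ch k) := by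
    intro s a1 a2
    have h0 := bot_le.trans_lt a2
    filter_upwards [Cfg.left F a1.1 h0 L _ a1.2.2.1, (fr_step a2).mp a1.2.2.2] with k b1 b2
    exact ⟨(F.ch s a1.1 h0 k).1, (F.ch s a1.1 h0 k).2.trans a1.2.1, b1, b2⟩
  refine h (fun s c => G c → c.ap = b.ap → I s → _) (fun s c hw hc hcb hs => ?_)
    (fun s c hw hc hcb hs => ?_) (fun s c h0 hw hc hcb hs => ?_) hb rfl ⟨h1, h2, h3, hj⟩
  · let J : Tw Ω → Tw Ω → Prop := fun s t =>
      I s ∧ G t ∧ s.ap < t.ap ∧ Cfg B G s L t.ap ∧ (t = c ∨ t.ap < b.ap)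
    have hJ : ∀ s t, J s t → ⊥ < t.lev → ∀ᶠ k in UU, J s (t.ch k) := by
      rintro s t ⟨a1, a2, a3, a4, a5⟩ h0
      filter_upwards [mim0 F a2 h0 a1.1 a3, Cfg.top F a1.1 a2 h0 a3 L a4] with k b1 b2
      refine ⟨a1, (F.ch t a2 h0 k).1, b1, b2, Or.inr ((F.ch t a2 h0 k).2.trans_le ?_)⟩
      rcases a5 with rfl | a5
      · exact hcb.le
      · exact a5.le
    refine hw.crit (I := J) ?_ hJ ?_ ?_ ⟨hs, hc, hcb ▸ hs.2.1, hcb ▸ hs.2.2.1, Or.inl rfl⟩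
    · rintro s t ⟨a1, a2, a3, a4, a5⟩ h0
      have h0' := bot_le.trans_lt h0
      filter_upwards [hI s a1 h0, Cfg.left F a1.1 h0' L _ a4] with k b1 b2
      exact ⟨b1, a2, (F.ch s a1.1 h0' k).2.trans a3, b2, a5⟩
    · rintro s t ⟨a1, a2, a3, a4, a5⟩ h0
      rcases a5 with rfl | a5
      · exact absurd h0 (noTop F hn a1.1 a2 a3)
      · obtain ⟨s', L', b1, b2, b3⟩ := HvB.up F a1.2.2.2 (t :: L) a1.1 a1.2.1
          ⟨a2, a3, a5, hcb ▸ h0, a1.2.2.1, a4⟩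
        exact ⟨s', L', b1, b2, by simp only [List.length_cons] at b3; omega⟩
    · exact fun s t a1 _ => Or.inr (fr_down le_rfl (hJ s) t a1)
  · obtain ⟨k, a1, a2⟩ := (hw.2.and (hI s hs hw.1)).exists
    exact a1 hc hcb a2
  · obtain ⟨k, a1⟩ := hw.exists
    exact a1 (F.sh c hc h0 k).1 ((F.sh c hc h0 k).2.trans hcb) hs

lemma not_unc (F : Frame γ (TP B) G) (hn : Lk B n) {e : WithBot Ω} {s b : Tw Ω} (hs : G s)
    (hb : G b) (h1 : s.ap < b.ap) (h0 : s.lev ≤ e) : ¬ Unc B e s b := by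
  intro h
  have : ∀ j, HvB B G b.ap j s := by
    intro j
    induction j with
    | zero => exact HvB.zero _ s
    | succ j ih => exact keyB F hn h hb ((fr_stop (not_lt.mpr h0)).mpr ih)
  exact absurd ((this n).lt F hn hs h1) (lt_irrefl _)

lemma window (F : Frame γ (TP B) G) (hn : Lk B n) {w : Tw Ω} (hw : G w) (l : ℕ → WithBot Ω)
    (h1 : ∀ i, l i ≤ l (i + 1)) (h2 : ∀ i, l i < w.lev) :
    ∃ i, ∀ᶠ s in fF (l (i + 1)) w, ¬ (Bad B (l i) w.ap s ∨ Unc B (l i) s w) := by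
  by_contra hc
  have hc' : ∀ i, ∀ᶠ s in fF (l (i + 1)) w, Bad B (l i) w.ap s ∨ Unc B (l i) s w := by
    intro i
    by_contra h
    exact hc ⟨i, Ultrafilter.eventually_not.mpr h⟩
  have : ∀ i, ∃ p q, p + q = i ∧ ∀ᶠ s in fF (l i) w, HvA B w.ap p s ∧ HvB B G w.ap q s := by
    intro i
    induction i with
    | zero => exact ⟨0, 0, rfl, Eventually.of_forall fun s => ⟨HvA.zero _ s, HvB.zero _ s⟩⟩
    | succ i ih =>
      obtain ⟨p, q, a1, a2⟩ := ih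
      rw [fr_comp (h1 i)] at a2
      rcases Ultrafilter.eventually_or.mp (hc' i) with h | h
      · refine ⟨p + 1, q, by omega, ?_⟩
        filter_upwards [a2, h] with s b1 b2
        exact ⟨keyA b2 (b1.mono fun _ h => h.1), HvB.up F (b1.mono fun _ h => h.2)⟩
      · refine ⟨p, q + 1, by omega, ?_⟩
        filter_upwards [a2, h] with s b1 b2
        exact ⟨HvA.up (b1.mono fun _ h => h.1), keyB F hn b2 hw (b1.mono fun _ h => h.2)⟩
  obtain ⟨p, q, a1, a2⟩ := this (2 * n)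
  obtain ⟨s, b1, b2⟩ := (a2.and (fr_lt F hw (h2 _))).exists
  have := b1.1.le hn
  have := b1.2.lt F hn b2.1 b2.2
  omega

end Pool.Agent.MP_71094f_lc.Cone

/-!
Selection of a red tree.
-/

namespace Pool.Agent.MP_71094f_lc.Cone

open Filter Set

variable {Ω : Type} [LinearOrder Ω] {B : Ω → Ω → Ω → Prop} {n : ℕ} {γ : Ω} {G : Tw Ω → Prop}

variable [hΩ : OmOne Ω]

/-- The level needed for a shape above a lower bound. -/
noncomputable def top : Shape → Ω → Ω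
  | .leaf => id
  | .node ch => fun l => Classical.choose (exists_ub_of_countable
      (countable_range fun p : ℕ × ℕ => (top (ch p.1))^[p.2] l))

lemma top_gt (ch : ℕ → Shape) (l : Ω) (k i : ℕ) : (top (ch k))^[i] l < top (.node ch) l :=
  Classical.choose_spec (exists_ub_of_countable
    (countable_range fun p : ℕ × ℕ => (top (ch p.1))^[p.2] l)) _ ⟨(k, i), rfl⟩

lemma le_top' (τ : Shape) (l : Ω) : l ≤ top τ l := by
  cases τ with
  | leaf => exact le_rfl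
  | node ch => exact (top_gt ch l 0 0).le

/-- Tokens: a tree, a lower bound and a shape. -/
abbrev Tk (Ω : Type) : Type := Tw Ω × Ω × Shape

/-- The token has room for its shape. -/
def Fit (G : Tw Ω → Prop) (x : Tk Ω) (τ : Shape) : Prop :=
  x.2.2 = τ ∧ G x.1 ∧ (τ = .leaf → x.1.lev ≤ ⊥) ∧ (τ ≠ .leaf → (top τ x.2.1 : Ω) ≤ x.1.lev)

/-- A good move for the child with index `k`. -/
def Spec (B : Ω → Ω → Ω → Prop) (γ : Ω) (G : Tw Ω → Prop) (x : Tk Ω) (k : ℕ)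
    (q : Ω × WithBot Ω × Shape) : Prop :=
  x.2.1 ≤ q.1 ∧ q.1 ≤ γ ∧ (q.2.1 = ⊥ ∨ (x.2.1 : WithBot Ω) ≤ q.2.1) ∧ q.2.1 < x.1.lev ∧
    (∃ ch, x.2.2 = .node ch ∧ q.2.2 = ch k) ∧ ∀ᶠ s in fF q.2.1 x.1,
      ¬ (Bad B q.1 x.1.ap s ∨ Unc B q.1 s x.1) ∧ Fit G (s, q.1, q.2.2) q.2.2

lemma spec_ex (F : Frame γ (TP B) G) (hn : Lk B n) {x : Tk Ω} {ch : ℕ → Shape}
    (h : Fit G x (.node ch)) (k : ℕ) : ∃ q, Spec B γ G x k q := by
  obtain ⟨h1, h2, -, h3⟩ := h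
  have h4 := h3 (by simp)
  have hlt : ∀ i, (((top (ch k))^[i] x.2.1 : Ω) : WithBot Ω) < x.1.lev := fun i =>
    (WithBot.coe_lt_coe.mpr (top_gt ch x.2.1 k i)).trans_le h4
  have hγ : ∀ i, (top (ch k))^[i] x.2.1 ≤ γ := fun i =>
    WithBot.coe_le_coe.mp ((hlt i).le.trans (F.le _ h2))
  by_cases hk : ch k = .leaf
  · have h0 := bot_le.trans_lt (hlt 0)
    refine ⟨(x.2.1, ⊥, ch k), le_rfl, hγ 0, Or.inl rfl, h0, ⟨ch, h1, rfl⟩, ?_⟩
    filter_upwards [fr_lt F h2 h0, fr_lev ⊥ x.1] with s a1 a2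
    exact ⟨not_or.mpr ⟨not_bad hn (a2.trans bot_le), not_unc F hn a1.1 h2 a1.2 (a2.trans bot_le)⟩,
      rfl, a1.1, fun _ => a2, fun h => absurd hk h⟩
  · have hm : ∀ i, (top (ch k))^[i] x.2.1 ≤ (top (ch k))^[i + 1] x.2.1 := fun i => by
      rw [Function.iterate_succ_apply']; exact le_top' _ _
    have hm0 : ∀ i, x.2.1 ≤ (top (ch k))^[i] x.2.1 := fun i => monotone_nat_of_le_succ hm (Nat.zero_le i)
    obtain ⟨i, hi⟩ := window F hn h2 (fun i => (((top (ch k))^[i] x.2.1 : Ω) : WithBot Ω))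
      (fun i => WithBot.coe_le_coe.mpr (hm i)) hlt
    refine ⟨((top (ch k))^[i] x.2.1, (((top (ch k))^[i + 1] x.2.1 : Ω) : WithBot Ω), ch k), hm0 i,
      hγ i, Or.inr (WithBot.coe_le_coe.mpr (hm0 _)), hlt _, ⟨ch, h1, rfl⟩, ?_⟩
    have hd := fr_down (I := fun s => G s ∧
      (((top (ch k))^[i + 1] x.2.1 : Ω) : WithBot Ω) ≤ s.lev) le_rfl (fun t a1 a2 => by
        filter_upwards [F.cof t a1.1 _ a2] with j hj
        exact ⟨(F.ch t a1.1 (bot_le.trans_lt a2) j).1, hj⟩) x.1 ⟨h2, (hlt _).le⟩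
    filter_upwards [hi, hd] with s a1 a2
    refine ⟨a1, rfl, a2.1, fun h => absurd h hk, fun _ => ?_⟩
    have := a2.2
    rwa [Function.iterate_succ_apply'] at this

open Classical in
/-- The move filter of a token. -/
noncomputable def Dm (B : Ω → Ω → Ω → Prop) (γ : Ω) (G : Tw Ω → Prop) (x : Tk Ω) (k : ℕ) :
    Filter (Tk Ω) :=
  if h : ∃ q, Spec B γ G x k q then
    map (fun s => (s, h.choose.1, h.choose.2.2)) (fF h.choose.2.1 x.1) else ⊥

lemma Dm_ev {x : Tk Ω} {k : ℕ} {P : Tk Ω → Prop}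
    (h : ∀ q, Spec B γ G x k q → ∀ᶠ s in fF q.2.1 x.1, P (s, q.1, q.2.2)) :
    ∀ᶠ y in Dm B γ G x k, P y := by
  unfold Dm
  split_ifs with h1
  · exact h _ h1.choose_spec
  · exact eventually_bot

omit hΩ in
lemma topF (F : Frame γ (TP B) G) {c s t : Tw Ω} {e z : WithBot Ω} (i : ℕ) (hc : G c)
    (hs : G s) (ht : G t) (h1 : s.ap ≤ t.ap) (h2 : t.ap < c.ap) (he : e ≤ γ)
    (hz : z ≤ γ) {P : Ω → Prop} (hi : ∀ c, TP B i s e t z c ↔ P c.ap) (h : P c.ap)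
    (y : WithBot Ω) : ∀ᶠ u in fF y c, G u ∧ t.ap < u.ap ∧ P u.ap := by
  refine fr_down (I := fun u => G u ∧ t.ap < u.ap ∧ P u.ap) bot_le ?_ c ⟨hc, h2, h⟩
  intro u hu h0
  filter_upwards [mim0 F hu.1 h0 ht hu.2.1,
    mimA F i hu.1 h0 hs ht (h1.trans_lt hu.2.1) hu.2.1 he hz hi hu.2.2] with k a1 a2
  exact ⟨(F.ch u hu.1 h0 k).1, a1, a2⟩

/-- The invariant system of the selection. -/
noncomputable def sys (F : Frame γ (TP B) G) (hn : Lk B n) : H37.Sys (Tk Ω) where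
  D := Dm B γ G
  Fit := Fit G
  R111 a b c := (G a.1 ∧ a.2.1 ≤ γ) ∧ (G b.1 ∧ b.2.1 ≤ γ) ∧ G c.1 ∧ a.1.ap < b.1.ap ∧
    b.1.ap < c.1.ap ∧ ¬ BW B a.2.1 b.2.1 c.1.ap a.1 b.1
  R21 a c := (G a.1 ∧ a.2.1 ≤ γ) ∧ G c.1 ∧ a.1.ap < c.1.ap ∧ ¬ Bad B a.2.1 c.1.ap a.1
  R12 a b := (G a.1 ∧ a.2.1 ≤ γ) ∧ G b.1 ∧ a.1.ap < b.1.ap ∧ ¬ Unc B a.2.1 a.1 b.1
  R3 a := G a.1
  fit_ne x ch k h := by
    unfold Dm
    rw [dif_pos (spec_ex F hn h k)]
    infer_instance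
  fit x ch k _ h := Dm_ev fun q hq => by
    obtain ⟨ch', a1, a2⟩ := hq.2.2.2.2.1
    have : ch' = ch := Shape.node.inj (a1.symm.trans h.1)
    rw [← this, ← a2]
    exact hq.2.2.2.2.2.mono fun s hs => hs.2
  h111a a b c k h := Dm_ev fun q hq => by
    obtain ⟨a1, a2, a3, a4, a5, a6⟩ := h
    filter_upwards [fr_le F a1.1 q.2.1, mvN (W := fun s => BW B a.2.1 b.2.1 c.1.ap s b.1) hq.2.2.1
      (fun t => BW.closed.stL t _) (BW.closed.buL _ _) a6] with s b1 b2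
    exact ⟨⟨b1.1, hq.2.1⟩, a2, a3, b1.2.trans_lt a4, a5,
      fun h => b2 (h.mono (WithBot.coe_le_coe.mpr hq.1) le_rfl)⟩
  h111b a b c k h := Dm_ev fun q hq => by
    obtain ⟨a1, a2, a3, a4, a5, a6⟩ := h
    filter_upwards [fr_le F a2.1 q.2.1, Cfg.topF F a1.1 a2.1 a4 (L := []) trivial q.2.1,
      mvN (W := BW B a.2.1 b.2.1 c.1.ap a.1) hq.2.2.1
      (fun t => BW.closed.stR _ t) (BW.closed.buR _ _) a6] with s b1 b3 b2
    exact ⟨a1, ⟨b1.1, hq.2.1⟩, a3, b3.2.1, b1.2.trans_lt a5,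
      fun h => b2 (h.mono le_rfl (WithBot.coe_le_coe.mpr hq.1))⟩
  h111c a b c k h := Dm_ev fun q hq => by
    obtain ⟨a1, a2, a3, a4, a5, a6⟩ := h
    filter_upwards [topF F 1 a3 a1.1 a2.1 a4.le a5 (WithBot.coe_le_coe.mpr a1.2)
      (WithBot.coe_le_coe.mpr a2.2) (P := fun u => ¬ BW B a.2.1 b.2.1 u a.1 b.1)
      (fun _ => Iff.rfl) a6 q.2.1] with s b1
    exact ⟨a1, a2, b1.1, a4, b1.2.1, b1.2.2⟩
  h21 a c k h := Dm_ev fun q hq => by
    obtain ⟨a1, a2, a3, a4⟩ := h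
    have hq1 := WithBot.coe_le_coe.mpr hq.1
    filter_upwards [fr_lt F a1.1 hq.2.2.2.1,
      mvN (W := fun s => BW B a.2.1 a.2.1 c.1.ap s a.1) hq.2.2.1
        (fun t => BW.closed.stL t _) (BW.closed.buL _ _) (fun h => a4 (Bad.base h)),
      mvN (W := Bad B a.2.1 c.1.ap) hq.2.2.1 Bad.step (fun h => by
        obtain ⟨y, c1, c2⟩ := (h.and (fr_lev ⊥ a.1)).exists
        exact absurd c1 (not_bad hn (c2.trans bot_le))) a4] with s b1 b2 b3
    exact ⟨⟨⟨b1.1, hq.2.1⟩, a1, a2, b1.2, a3, fun h => b2 (h.mono hq1 le_rfl)⟩,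
      ⟨b1.1, hq.2.1⟩, a2, b1.2.trans a3, fun h => b3 (h.mono hq1)⟩
  h21c a c k h := Dm_ev fun q hq => by
    obtain ⟨a1, a2, a3, a4⟩ := h
    filter_upwards [topF F 2 a2 a1.1 a1.1 le_rfl a3 (WithBot.coe_le_coe.mpr a1.2)
      (bot_le (a := (γ : WithBot Ω))) (P := fun u => ¬ Bad B a.2.1 u a.1)
      (fun _ => Iff.rfl) a4 q.2.1] with s b1
    exact ⟨a1, b1.1, b1.2.1, b1.2.2⟩
  h12a a b k h := Dm_ev fun q hq => by
    obtain ⟨a1, a2, a3, a4⟩ := h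
    filter_upwards [fr_le F a1.1 q.2.1,
      mvN (W := fun s => Unc B a.2.1 s b.1) hq.2.2.1 (fun t => Unc.step t _) (fun h => by
        obtain ⟨y, ⟨c1, c2⟩, c3⟩ := ((h.and (fr_lev ⊥ a.1)).and (fr_le F a1.1 ⊥)).exists
        exact absurd c1 (not_unc F hn c3.1 a2 (c3.2.trans_lt a3) (c2.trans bot_le))) a4]
      with s b1 b2
    exact ⟨⟨b1.1, hq.2.1⟩, a2, b1.2.trans_lt a3,
      fun h => b2 (h.mono (WithBot.coe_le_coe.mpr hq.1))⟩
  h12 a b k h := Dm_ev fun q hq => by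
    obtain ⟨a1, a2, a3, a4⟩ := h
    have hd := fr_down (I := fun u => G u ∧ a.1.ap < u.ap ∧ ¬ Unc B a.2.1 a.1 u) (z := q.2.1)
      bot_le (fun u hu h0 => by
        filter_upwards [mim0 F hu.1 h0 a1.1 hu.2.1, F.mim u hu.1 h0 4 a.1 a.2.1 a.1 ⊥ a1.1 a1.1
          hu.2.1 hu.2.1 (WithBot.coe_le_coe.mpr a1.2) bot_le,
          Ultrafilter.eventually_not.mpr fun h => hu.2.2 (Unc.shad h0 h)] with j c1 c2 c3
        exact ⟨(F.ch u hu.1 h0 j).1, c1, c2 c3⟩) b.1 ⟨a2, a3, a4⟩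
    filter_upwards [fr_lt F a2 hq.2.2.2.1, hd,
      mvN (W := BW B a.2.1 ⊥ b.1.ap a.1) (Or.inr bot_le)
        (fun t => BW.closed.stR _ t) (BW.closed.buR _ _) (fun h => a4 (Unc.base h))]
      with s b1 b2 b3
    exact ⟨⟨a1, ⟨b1.1, hq.2.1⟩, a2, b2.2.1, b1.2, fun h => b3 (h.mono le_rfl bot_le)⟩,
      a1, b1.1, b2.2.1, b2.2.2⟩
  h3 a k h := Dm_ev fun q hq => by
    filter_upwards [fr_lt F h hq.2.2.2.1, hq.2.2.2.2.2] with s b1 b2
    have := not_or.mp b2.1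
    exact ⟨⟨⟨b1.1, hq.2.1⟩, h, b1.2, this.2⟩, ⟨⟨b1.1, hq.2.1⟩, h, b1.2, this.1⟩, b1.1⟩

/-- A red copy of the leaves of every shape. -/
theorem red_tree (hn : Lk B n) (ch : ℕ → Shape) : ∃ h : List ℕ → Ω,
    (∀ a c, (Shape.node ch).sub a = some .leaf → (Shape.node ch).sub c = some .leaf → prec a c →
      h a < h c) ∧
    ∀ a b c, (Shape.node ch).sub a = some .leaf → (Shape.node ch).sub b = some .leaf →
      (Shape.node ch).sub c = some .leaf → prec a b → prec b c → ¬ B (h a) (h b) (h c) := by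
  have : Nonempty Ω := by
    by_contra h
    rw [not_nonempty_iff] at h
    exact hΩ.unc (Set.to_countable _)
  obtain ⟨l⟩ := this
  obtain ⟨G, F⟩ := exists_frame (top (.node ch) l) (TP B)
  obtain ⟨t, h1, h2⟩ := F.top
  obtain ⟨g, a1, a2, a3⟩ := (sys F hn).select (.node ch) (t, l, .node ch)
    ⟨rfl, h1, by simp, fun _ => h2.ge⟩ h1
  refine ⟨fun a => (g a).1.ap, fun a c ha hc h => (a2 a c (by simp [ha]) (by simp [hc]) h).2.2.1,
    fun a b c ha hb hc hab hbc h => ?_⟩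
  exact (a3 a b c (by simp [ha]) (by simp [hb]) (by simp [hc]) hab hbc).2.2.2.2.2
    (BW.closed.base _ _ (le_bot_iff.mp ((a1 a _ ha).2.2.1 rfl))
      (le_bot_iff.mp ((a1 b _ hb).2.2.1 rfl)) h)

/-- Every countable ordinal embeds into the leaves of a shape. -/
lemma exists_shape (α : Ordinal.{0}) (hα : α < (Cardinal.aleph 1).ord) :
    ∃ (ch : ℕ → Shape) (e : Ordinal.{0} → List ℕ),
      (∀ β, β ≤ α → (Shape.node ch).sub (e β) = some .leaf) ∧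
      ∀ β β', β < β' → β' ≤ α → prec (e β) (e β') := by
  classical
  induction α using WellFoundedLT.induction with
  | ind α ih =>
    rcases eq_bot_or_bot_lt α with rfl | h0
    · exact ⟨fun _ => .leaf, fun _ => [0], fun _ _ => rfl,
        fun β β' h1 h2 => absurd (h1.trans_le h2) not_lt_bot⟩
    have hc : (Iio α).Countable := by
      rw [Cardinal.countable_iff_lt_aleph_one, Cardinal.mk_Iio_ordinal, Cardinal.lift_lt_aleph_one]
      exact Cardinal.lt_ord.mp hα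
    obtain ⟨b, hb⟩ := hc.exists_eq_range ⟨⊥, h0⟩
    have hb1 : ∀ k, b k < α := fun k => by
      have : b k ∈ Iio α := by rw [hb]; exact mem_range_self k
      exact this
    have hb2 : ∀ β, β < α → ∃ k, β ≤ b k := fun β hβ => by
      have : β ∈ range b := by rw [← hb]; exact hβ
      obtain ⟨k, hk⟩ := this
      exact ⟨k, hk.ge⟩
    choose c e he1 he2 using fun k => ih (b k) (hb1 k) ((hb1 k).trans hα)
    refine ⟨fun j => if j = 0 then .node fun k => .node (c k) else .leaf,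
      fun β => if h : β < α then 0 :: Nat.find (hb2 β h) :: e (Nat.find (hb2 β h)) β else [1],
      fun β _ => ?_, fun β β' h1 h2 => ?_⟩
    · by_cases h : β < α
      · simp only [dif_pos h]
        exact he1 _ β (Nat.find_spec (hb2 β h))
      · simp only [dif_neg h]
        rfl
    · have h : β < α := h1.trans_le h2
      by_cases h' : β' < α
      · simp only [dif_pos h, dif_pos h']
        have h3 := Nat.find_spec (hb2 β' h')
        refine Or.inr ⟨rfl, ?_⟩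
        rcases (Nat.find_min' (hb2 β h) (h1.le.trans h3)).lt_or_eq with h4 | h4
        · exact Or.inl h4
        · refine Or.inr ⟨h4, ?_⟩
          rw [h4]
          exact he2 _ _ _ h1 h3
      · simp only [dif_pos h, dif_neg h']
        exact Or.inl Nat.zero_lt_one

end Pool.Agent.MP_71094f_lc.Cone
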